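import Pool.Agent.H78.LR.Eng2
import Mathlib

/-!
# FR.Sph : odd locally compatible labellings of `ℝ^(m+1) ∖ 0` with `m` colours do not exist

A form of the Borsuk-Ulam theorem (Tucker's lemma), from the engine for `ℤ/2`.
-/

namespace Pool.Agent.H36.FR

open Pool.Agent.H78.LR Pool.Agent.H73.Avr

/-- nonzero vectors -/
abbrev NZ (m : ℕ) : Type := {d : Fin (m + 1) → ℝ // d ≠ 0}

/-- the antipode -/
def anti {m : ℕ} (d : NZ m) : NZ m := ⟨-d.1, neg_ne_zero.2 d.2⟩

theorem anti_anti {m : ℕ} (d : NZ m) : anti (anti d) = d := by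
  apply Subtype.ext; simp [anti]

theorem anti_continuous {m : ℕ} : Continuous (anti (m := m)) :=
  (continuous_subtype_val.neg).subtype_mk _

/-- the point reached by the `k`-th contraction -/
noncomputable def tgt (m k : ℕ) : NZ m :=
  if h : k + 1 < m + 1 then ⟨Pi.single ⟨k + 1, h⟩ 1, by simp⟩ else ⟨Pi.single 0 1, by simp⟩

open Classical in
/-- the `k`-th contraction -/
noncomputable def ctr (m k : ℕ) (x : NZ m) (t : ℝ) : NZ m :=
  if h : (1 - t) • x.1 + t • (tgt m k).1 ≠ 0 then ⟨(1 - t) • x.1 + t • (tgt m k).1, h⟩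
  else tgt m k

theorem ctr_zero {m k : ℕ} (x : NZ m) : ctr m k x 0 = x := by
  have h : (1 - (0 : ℝ)) • x.1 + (0 : ℝ) • (tgt m k).1 = x.1 := by simp
  unfold ctr
  rw [dif_pos (by rw [h]; exact x.2)]
  exact Subtype.ext h

theorem ctr_one {m k : ℕ} (x : NZ m) : ctr m k x 1 = tgt m k := by
  have h : (1 - (1 : ℝ)) • x.1 + (1 : ℝ) • (tgt m k).1 = (tgt m k).1 := by simp
  unfold ctr
  rw [dif_pos (by rw [h]; exact (tgt m k).2)]
  exact Subtype.ext h

theorem ctr_val {m k : ℕ} {x : NZ m} {t : ℝ} (h : (1 - t) • x.1 + t • (tgt m k).1 ≠ 0) :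
    (ctr m k x t).1 = (1 - t) • x.1 + t • (tgt m k).1 := by
  unfold ctr
  rw [dif_pos h]

/-- first coordinates only -/
def Sup {m : ℕ} (k : ℕ) (x : NZ m) : Prop := ∀ i : Fin (m + 1), k < i.1 → x.1 i = 0

theorem ctr_ne {m k : ℕ} (hk : k < m) {x : NZ m} (hx : Sup k x) (t : ℝ) :
    (1 - t) • x.1 + t • (tgt m k).1 ≠ 0 := by
  intro h
  have hk1 : k + 1 < m + 1 := by omega
  have htg : (tgt m k).1 = Pi.single ⟨k + 1, hk1⟩ 1 := by
    unfold tgt; rw [dif_pos hk1]
  rw [htg] at h
  have h1 := congrFun h ⟨k + 1, hk1⟩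
  simp only [Pi.add_apply, Pi.smul_apply, smul_eq_mul, Pi.single_eq_same, mul_one,
    Pi.zero_apply] at h1
  rw [hx ⟨k + 1, hk1⟩ (by simp)] at h1
  have ht : t = 0 := by linarith
  subst ht
  apply x.2
  simpa using h

theorem theta_ok {m : ℕ} (k : ℕ) (hk : k ≤ m) (a : ℕ → ℕ) :
    Continuous (theta' (ctr m) anti (⟨Pi.single 0 1, by simp⟩ : NZ m) k a) ∧
      ∀ t, Sup k (theta' (ctr m) anti (⟨Pi.single 0 1, by simp⟩ : NZ m) k a t) := by
  induction k with
  | zero =>
    refine ⟨continuous_const, fun t i hi => ?_⟩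
    show (Pi.single 0 1 : Fin (m + 1) → ℝ) i = 0
    rw [Pi.single_apply, if_neg]
    rintro rfl
    simp at hi
  | succ k ih =>
    obtain ⟨hc, hs⟩ := ih (by omega)
    have hanti : ∀ (s : ℕ) (x : NZ m), Sup k x → Sup k (anti^[s] x) := by
      intro s
      induction s with
      | zero => intro x hx; exact hx
      | succ s ih2 =>
        intro x hx
        rw [Function.iterate_succ_apply]
        apply ih2
        intro i hi
        show -(x.1 i) = 0
        rw [hx i hi, neg_zero]
    have hval : ∀ t, (theta' (ctr m) anti (⟨Pi.single 0 1, by simp⟩ : NZ m) (k + 1) a t).1 =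
        (1 - t k) • (anti^[a k] (theta' (ctr m) anti (⟨Pi.single 0 1, by simp⟩ : NZ m) k a t)).1 +
          t k • (tgt m k).1 := by
      intro t
      exact ctr_val (ctr_ne (by omega) (hanti _ _ (hs t)) (t k))
    constructor
    · rw [continuous_induced_rng]
      have h1 : Continuous fun t : ℕ → ℝ =>
          (1 - t k) • (anti^[a k] (theta' (ctr m) anti (⟨Pi.single 0 1, by simp⟩ : NZ m) k a t)).1 +
            t k • (tgt m k).1 := by
        have h2 : Continuous fun t : ℕ → ℝ =>
            (anti^[a k] (theta' (ctr m) anti (⟨Pi.single 0 1, by simp⟩ : NZ m) k a t)).1 :=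
          continuous_subtype_val.comp ((anti_continuous.iterate _).comp hc)
        exact ((continuous_const.sub (continuous_apply k)).smul h2).add
          ((continuous_apply k).smul continuous_const)
      exact h1.congr fun t => (hval t).symm
    · intro t i hi
      rw [hval t]
      have hk1 : k + 1 < m + 1 := by omega
      have htg : (tgt m k).1 = Pi.single ⟨k + 1, hk1⟩ 1 := by
        unfold tgt; rw [dif_pos hk1]
      rw [htg]
      simp only [Pi.add_apply, Pi.smul_apply, smul_eq_mul]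
      rw [hanti _ _ (hs t) i (by omega), Pi.single_apply, if_neg]
      · simp
      · rintro rfl
        simp at hi

/-- **Borsuk-Ulam, labelling form.** There is no odd, locally compatible labelling of the nonzero
vectors of `ℝ^(m+1)` by a sign and one of `m` colours. -/
theorem no_labelling {m : ℕ} (s : NZ m → Bool) (c : NZ m → Fin m)
    (hs : ∀ d, s (anti d) = !(s d)) (hc : ∀ d, c (anti d) = c d)
    (hloc : ∀ d, ∃ U : Set (NZ m), IsOpen U ∧ d ∈ U ∧ ∀ y ∈ U, ∀ z ∈ U, c y = c z → s y = s z) :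
    False := by
  classical
  let ℓ : NZ m → ZMod 2 × ℕ := fun d => (if s d then 1 else 0, (c d).1)
  refine engine' (q := 2) (by norm_num) m (g := anti) ?_ ℓ ?_ ?_ ?_ (ctr m)
    (⟨Pi.single 0 1, by simp⟩ : NZ m) (fun k => tgt m k) (fun k x => ctr_zero x)
    (fun k x => ctr_one x) ?_
  · funext d
    show anti (anti d) = d
    exact anti_anti d
  · intro d
    show ((if s (anti d) then (1 : ZMod 2) else 0), (c (anti d)).1) =
      ((if s d then (1 : ZMod 2) else 0) + 1, (c d).1)
    rw [hs, hc]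
    cases s d
    · simp
    · simp
      decide
  · intro d
    exact (c d).2
  · intro d
    obtain ⟨U, hU, hd, hUc⟩ := hloc d
    refine ⟨U, hU, hd, fun y hy z hz h => ?_⟩
    show (if s y then (1 : ZMod 2) else 0) = (if s z then (1 : ZMod 2) else 0)
    rw [hUc y hy z hz (Fin.ext h)]
  · intro k hk a _
    exact (theta_ok k hk a).1

end Pool.Agent.H36.FR
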