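import Pool.Agent.H36.FR.Sph

/-!
# FR.Top : no odd nested-compatible labelling of the faces of a centrally symmetric polytope

`W` is a finite set of points `p w` with an involution `ν`, `p (ν w) = - p w`. A nonempty set `F` of
points is exposed if some nonzero direction is maximal exactly at (at least) all points of `F`.
-/

set_option linter.unusedSectionVars false

namespace Pool.Agent.H36.FR

open Finset

section

variable {m : ℕ} {W : Type} [Fintype W] [DecidableEq W]

/-- value of a direction at a point -/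
def val (p : W → Fin (m + 1) → ℝ) (d : Fin (m + 1) → ℝ) (w : W) : ℝ := ∑ i, d i * p w i

theorem val_continuous (p : W → Fin (m + 1) → ℝ) (w : W) : Continuous fun d => val p d w :=
  continuous_finsetSum _ fun i _ => (continuous_apply i).mul continuous_const

theorem val_neg (p : W → Fin (m + 1) → ℝ) (d : Fin (m + 1) → ℝ) (w : W) :
    val p (-d) w = - val p d w := by
  unfold val
  rw [← Finset.sum_neg_distrib]
  exact Finset.sum_congr rfl fun i _ => by rw [Pi.neg_apply]; ring

/-- nonempty set of points in a proper face -/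
def Exp (p : W → Fin (m + 1) → ℝ) (F : Finset W) : Prop :=
  F.Nonempty ∧ ∃ d : Fin (m + 1) → ℝ, d ≠ 0 ∧ ∀ w ∈ F, ∀ w', val p d w' ≤ val p d w

/-- how strictly `F` is above the rest: all differences -/
noncomputable def gap (p : W → Fin (m + 1) → ℝ) (d : Fin (m + 1) → ℝ) (F : Finset W) : ℝ :=
  if h : (F ×ˢ Fᶜ).Nonempty then (F ×ˢ Fᶜ).inf' h (fun a => val p d a.1 - val p d a.2) else 0

theorem gap_continuous (p : W → Fin (m + 1) → ℝ) (F : Finset W) : Continuous fun d => gap p d F := by
  unfold gap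
  by_cases h : (F ×ˢ Fᶜ).Nonempty
  · simp only [h, dif_pos]
    exact Continuous.finset_inf'_apply h fun a _ => (val_continuous p _).sub (val_continuous p _)
  · simp only [h, dif_neg, not_false_eq_true]
    exact continuous_const

theorem gap_pos {p : W → Fin (m + 1) → ℝ} {d : Fin (m + 1) → ℝ} {F : Finset W}
    (h : 0 < gap p d F) : ∀ a ∈ F, ∀ b, b ∉ F → val p d b < val p d a := by
  intro a ha b hb
  have hne : (F ×ˢ Fᶜ).Nonempty := ⟨(a, b), by simp [ha, hb]⟩
  unfold gap at h
  rw [dif_pos hne, Finset.lt_inf'_iff] at h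
  have := h (a, b) (by simp [ha, hb])
  simpa using this

theorem gap_pos_of {p : W → Fin (m + 1) → ℝ} {d : Fin (m + 1) → ℝ} {F : Finset W}
    (hF : F.Nonempty) (hF' : Fᶜ.Nonempty) (h : ∀ a ∈ F, ∀ b, b ∉ F → val p d b < val p d a) :
    0 < gap p d F := by
  have hne : (F ×ˢ Fᶜ).Nonempty := hF.product hF'
  unfold gap
  rw [dif_pos hne, Finset.lt_inf'_iff]
  rintro ⟨a, b⟩ hab
  rw [Finset.mem_product, Finset.mem_compl] at hab
  have := h a hab.1 b hab.2
  simpa using this

/-- sets with positive gap are nested -/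
theorem gap_nested {p : W → Fin (m + 1) → ℝ} {d : Fin (m + 1) → ℝ} {F G : Finset W}
    (hF : 0 < gap p d F) (hG : 0 < gap p d G) : F ⊆ G ∨ G ⊆ F := by
  by_contra hcon
  push Not at hcon
  obtain ⟨h1, h2⟩ := hcon
  obtain ⟨a, ha, ha'⟩ := Finset.not_subset.1 h1
  obtain ⟨b, hb, hb'⟩ := Finset.not_subset.1 h2
  have h3 := gap_pos hF a ha b hb'
  have h4 := gap_pos hG b hb a ha'
  linarith

theorem gap_neg {p : W → Fin (m + 1) → ℝ} {ν : W → W} (hν : ∀ w, ν (ν w) = w)
    (hp : ∀ w, p (ν w) = - p w) (d : Fin (m + 1) → ℝ) (F : Finset W) :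
    gap p (-d) (F.image ν) = gap p d F := by
  have hv : ∀ w, val p (-d) (ν w) = val p d w := by
    intro w
    unfold val
    rw [hp]
    exact Finset.sum_congr rfl fun i _ => by rw [Pi.neg_apply, Pi.neg_apply]; ring
  have hinj : Function.Injective ν := fun x y h => by rw [← hν x, h, hν]
  have hmem : ∀ w, ν w ∈ F.image ν ↔ w ∈ F := by
    intro w
    exact hinj.mem_finset_image
  by_cases hne : (F ×ˢ Fᶜ).Nonempty
  · have hne' : (F.image ν ×ˢ (F.image ν)ᶜ).Nonempty := by
      obtain ⟨⟨a, b⟩, hab⟩ := hne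
      rw [Finset.mem_product, Finset.mem_compl] at hab
      exact ⟨(ν a, ν b), by
        rw [Finset.mem_product, Finset.mem_compl]
        exact ⟨(hmem a).2 hab.1, fun h => hab.2 ((hmem b).1 h)⟩⟩
    unfold gap
    rw [dif_pos hne, dif_pos hne']
    apply le_antisymm
    · rw [Finset.le_inf'_iff]
      rintro ⟨a, b⟩ hab
      rw [Finset.mem_product, Finset.mem_compl] at hab
      have h1 : (ν a, ν b) ∈ F.image ν ×ˢ (F.image ν)ᶜ := by
        rw [Finset.mem_product, Finset.mem_compl]
        exact ⟨(hmem a).2 hab.1, fun h => hab.2 ((hmem b).1 h)⟩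
      have h2 := Finset.inf'_le (fun a => val p (-d) a.1 - val p (-d) a.2) h1
      simp only [hv] at h2
      exact h2
    · rw [Finset.le_inf'_iff]
      rintro ⟨a, b⟩ hab
      rw [Finset.mem_product, Finset.mem_compl] at hab
      have h1 : (ν a, ν b) ∈ F ×ˢ Fᶜ := by
        rw [Finset.mem_product, Finset.mem_compl]
        refine ⟨(hmem (ν a)).1 (by rw [hν]; exact hab.1), fun h => hab.2 ?_⟩
        have := (hmem (ν b)).2 h
        rwa [hν] at this
      have h2 := Finset.inf'_le (fun a => val p d a.1 - val p d a.2) h1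
      simp only at h2
      rw [← hv (ν a), ← hv (ν b), hν, hν] at h2
      exact h2
  · have hne' : ¬ (F.image ν ×ˢ (F.image ν)ᶜ).Nonempty := by
      rintro ⟨⟨a, b⟩, hab⟩
      rw [Finset.mem_product, Finset.mem_compl] at hab
      apply hne
      refine ⟨(ν a, ν b), ?_⟩
      rw [Finset.mem_product, Finset.mem_compl]
      refine ⟨(hmem (ν a)).1 (by rw [hν]; exact hab.1), fun h => hab.2 ?_⟩
      have := (hmem (ν b)).2 h
      rwa [hν] at this
    unfold gap
    rw [dif_neg hne, dif_neg hne']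

/-- **no odd nested-compatible labelling.** -/
theorem top (p : W → Fin (m + 1) → ℝ) (ν : W → W) (hν : ∀ w, ν (ν w) = w)
    (hp : ∀ w, p (ν w) = - p w)
    (hsp : ∀ d : Fin (m + 1) → ℝ, d ≠ 0 → ∃ w w', val p d w ≠ val p d w')
    (s : Finset W → Bool) (c : Finset W → Fin m)
    (hs : ∀ F, Exp p F → s (F.image ν) = !(s F)) (hc : ∀ F, Exp p F → c (F.image ν) = c F)
    (hcomp : ∀ F G, Exp p F → Exp p G → F ⊆ G → c F = c G → s F = s G) : False := by
  classical
  -- the exposed sets
  let E : Finset (Finset W) := Finset.univ.filter (Exp p)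
  have hE : ∀ F, F ∈ E ↔ Exp p F := fun F => by simp [E]
  have hposex : ∀ d : Fin (m + 1) → ℝ, d ≠ 0 → ∃ F ∈ E, 0 < gap p d F := by
    intro d hd
    obtain ⟨w0, w1, hw⟩ := hsp d hd
    obtain ⟨a, -, ha⟩ := Finset.exists_max_image Finset.univ (val p d) ⟨w0, Finset.mem_univ _⟩
    refine ⟨Finset.univ.filter (fun w => val p d w = val p d a), ?_, ?_⟩
    · rw [hE]
      refine ⟨⟨a, by simp⟩, d, hd, ?_⟩
      intro w hw' w'
      rw [Finset.mem_filter] at hw'
      rw [hw'.2]
      exact ha w' (Finset.mem_univ _)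
    · apply gap_pos_of
      · exact ⟨a, by simp⟩
      · by_contra hcon
        rw [Finset.not_nonempty_iff_eq_empty] at hcon
        have h1 : ∀ w, val p d w = val p d a := by
          intro w
          by_contra h2
          have : w ∈ (Finset.univ.filter (fun w => val p d w = val p d a))ᶜ := by
            simp [h2]
          rw [hcon] at this
          simp at this
        exact hw ((h1 w0).trans (h1 w1).symm)
      · intro x hx b hb
        rw [Finset.mem_filter] at hx hb
        rw [hx.2]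
        refine lt_of_le_of_ne (ha b (Finset.mem_univ _)) fun h => hb ⟨Finset.mem_univ _, h⟩
  -- the maximisers
  let S : (Fin (m + 1) → ℝ) → Finset (Finset W) := fun d =>
    E.filter (fun F => ∀ G ∈ E, gap p d G ≤ gap p d F)
  have hSmem : ∀ d F, F ∈ S d ↔ F ∈ E ∧ ∀ G ∈ E, gap p d G ≤ gap p d F := fun d F => by
    simp [S]
  have hSne : ∀ d, d ≠ 0 → (S d).Nonempty := by
    intro d hd
    obtain ⟨F, hF, -⟩ := hposex d hd
    obtain ⟨G, hG, hmax⟩ := Finset.exists_max_image E (gap p d) ⟨F, hF⟩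
    exact ⟨G, (hSmem d G).2 ⟨hG, hmax⟩⟩
  have hSpos : ∀ d, d ≠ 0 → ∀ F ∈ S d, 0 < gap p d F := by
    intro d hd F hF
    obtain ⟨G, hG, hpos⟩ := hposex d hd
    exact hpos.trans_le (((hSmem d F).1 hF).2 G hG)
  have hchoice : ∀ d : NZ m, ∃ F ∈ S d.1, ∀ G ∈ S d.1, F ⊆ G := by
    intro d
    obtain ⟨F, hF, hmin⟩ := Finset.exists_min_image (S d.1) Finset.card (hSne d.1 d.2)
    refine ⟨F, hF, fun G hG => ?_⟩
    rcases gap_nested (hSpos d.1 d.2 F hF) (hSpos d.1 d.2 G hG) with h | h
    · exact h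
    · rw [Finset.eq_of_subset_of_card_le h (hmin G hG)]
  choose Φ hΦ hΦmin using hchoice
  have hΦE : ∀ d, Exp p (Φ d) := fun d => (hE _).1 ((hSmem _ _).1 (hΦ d)).1
  have himg : ∀ F : Finset W, (F.image ν).image ν = F := by
    intro F
    rw [Finset.image_image]
    have : ν ∘ ν = id := funext hν
    rw [this, Finset.image_id]
  have hExpν : ∀ F, Exp p F → Exp p (F.image ν) := by
    rintro F ⟨h1, d, hd, h2⟩
    refine ⟨h1.image ν, -d, neg_ne_zero.2 hd, ?_⟩
    intro w hw w'
    obtain ⟨v, hv, rfl⟩ := Finset.mem_image.1 hw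
    have hval : ∀ w, val p (-d) (ν w) = val p d w := by
      intro w
      unfold val
      rw [hp]
      exact Finset.sum_congr rfl fun i _ => by rw [Pi.neg_apply, Pi.neg_apply]; ring
    rw [hval, ← hν w', hval]
    exact h2 v hv _
  have hSν : ∀ d F, F ∈ S d → F.image ν ∈ S (-d) := by
    intro d F hF
    rw [hSmem] at hF ⊢
    refine ⟨(hE _).2 (hExpν F ((hE _).1 hF.1)), fun G hG => ?_⟩
    rw [gap_neg hν hp]
    have h1 := hF.2 (G.image ν) ((hE _).2 (hExpν G ((hE _).1 hG)))
    have h2 := gap_neg (p := p) hν hp d (G.image ν)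
    rw [himg] at h2
    rw [h2]
    exact h1
  have hΦanti : ∀ d, Φ (anti d) = (Φ d).image ν := by
    intro d
    have hA : ∀ d : NZ m, Φ (anti d) ⊆ (Φ d).image ν := fun d =>
      hΦmin (anti d) _ (hSν d.1 _ (hΦ d))
    apply Finset.Subset.antisymm (hA d)
    have h1 := hA (anti d)
    rw [anti_anti] at h1
    have h2 := Finset.image_subset_image (f := ν) h1
    rwa [himg] at h2
  refine no_labelling (fun d => s (Φ d)) (fun d => c (Φ d)) ?_ ?_ ?_
  · intro d
    show s (Φ (anti d)) = !(s (Φ d))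
    rw [hΦanti, hs _ (hΦE d)]
  · intro d
    show c (Φ (anti d)) = c (Φ d)
    rw [hΦanti, hc _ (hΦE d)]
  · intro d
    let U : Set (NZ m) := {y | ∀ F ∈ E, F ∉ S d.1 → gap p y.1 F < gap p y.1 (Φ d)}
    have hUo : IsOpen U := by
      have : U = ⋂ F ∈ (E.filter fun F => F ∉ S d.1), {y : NZ m | gap p y.1 F < gap p y.1 (Φ d)} := by
        ext y
        simp only [U, Set.mem_ofPred_eq, Set.mem_iInter, Finset.mem_filter, and_imp]
      rw [this]
      exact isOpen_biInter_finset fun F _ =>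
        isOpen_lt ((gap_continuous p F).comp continuous_subtype_val)
          ((gap_continuous p (Φ d)).comp continuous_subtype_val)
    have hdU : d ∈ U := by
      intro F hF hFS
      have h1 : gap p d.1 F ≤ gap p d.1 (Φ d) := ((hSmem _ _).1 (hΦ d)).2 F hF
      refine lt_of_le_of_ne h1 fun h => hFS ?_
      rw [hSmem]
      exact ⟨hF, fun G hG => h ▸ ((hSmem _ _).1 (hΦ d)).2 G hG⟩
    have hUS : ∀ y ∈ U, Φ y ∈ S d.1 := by
      intro y hy
      by_contra hcon
      have h1 := hy (Φ y) ((hSmem _ _).1 (hΦ y)).1 hcon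
      have h2 := ((hSmem _ _).1 (hΦ y)).2 (Φ d) ((hSmem _ _).1 (hΦ d)).1
      linarith
    refine ⟨U, hUo, hdU, fun y hy z hz h => ?_⟩
    show s (Φ y) = s (Φ z)
    rcases gap_nested (hSpos d.1 d.2 _ (hUS y hy)) (hSpos d.1 d.2 _ (hUS z hz)) with h1 | h1
    · exact hcomp _ _ (hΦE y) (hΦE z) h1 h
    · exact (hcomp _ _ (hΦE z) (hΦE y) h1 h.symm).symm

end

/-! ## Directions on a finite set `V`, modulo constants -/

section

variable {m : ℕ} {V W : Type} [Fintype V] [Fintype W] [DecidableEq W]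

/-- nonempty set of points in a proper face, for points with coordinates in `V` -/
def ExpV (x : W → V → ℝ) (F : Finset W) : Prop :=
  F.Nonempty ∧ ∃ d : V → ℝ, (∃ a b, d a ≠ d b) ∧ ∀ w ∈ F, ∀ w', ∑ v, d v * x w' v ≤ ∑ v, d v * x w v

/-- **no odd nested-compatible labelling**, for a symmetric finite set of points of `ℝ^V` which
separates all nonconstant directions; `card V = m + 2` and `m` colours. -/
theorem topV (hcard : Fintype.card V = m + 2) (x : W → V → ℝ) (ν : W → W)
    (hν : ∀ w, ν (ν w) = w) (hx : ∀ w v, x (ν w) v = - x w v)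
    (hsp : ∀ d : V → ℝ, (∃ a b, d a ≠ d b) → ∃ w w', ∑ v, d v * x w v ≠ ∑ v, d v * x w' v)
    (s : Finset W → Bool) (c : Finset W → Fin m)
    (hs : ∀ F, ExpV x F → s (F.image ν) = !(s F)) (hc : ∀ F, ExpV x F → c (F.image ν) = c F)
    (hcomp : ∀ F G, ExpV x F → ExpV x G → F ⊆ G → c F = c G → s F = s G) : False := by
  classical
  have e : Fin (m + 1 + 1) ≃ V := (Fintype.equivFinOfCardEq hcard).symm
  let p : W → Fin (m + 1) → ℝ := fun w i => x w (e i.succ)
  let ext : (Fin (m + 1) → ℝ) → V → ℝ := fun d v => (Fin.cons 0 d : Fin (m + 1 + 1) → ℝ) (e.symm v)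
  have hval : ∀ d w, ∑ v, ext d v * x w v = val p d w := by
    intro d w
    rw [← e.sum_comp]
    simp only [ext, Equiv.symm_apply_apply]
    rw [Fin.sum_univ_succ]
    simp only [Fin.cons_zero, Fin.cons_succ, zero_mul, zero_add]
    rfl
  have hext : ∀ d : Fin (m + 1) → ℝ, d ≠ 0 → ∃ a b, ext d a ≠ ext d b := by
    intro d hd
    obtain ⟨i, hi⟩ := Function.ne_iff.1 hd
    refine ⟨e i.succ, e 0, ?_⟩
    simp only [ext, Equiv.symm_apply_apply, Fin.cons_zero, Fin.cons_succ]
    simpa using hi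
  have hExp : ∀ F, Exp p F → ExpV x F := by
    rintro F ⟨h1, d, hd, h2⟩
    refine ⟨h1, ext d, hext d hd, fun w hw w' => ?_⟩
    rw [hval, hval]
    exact h2 w hw w'
  refine top p ν hν ?_ ?_ s c (fun F hF => hs F (hExp F hF)) (fun F hF => hc F (hExp F hF))
    (fun F G hF hG => hcomp F G (hExp F hF) (hExp G hG))
  · intro w
    funext i
    show x (ν w) _ = - x w _
    exact hx w _
  · intro d hd
    obtain ⟨w, w', h⟩ := hsp (ext d) (hext d hd)
    refine ⟨w, w', ?_⟩
    rw [hval, hval] at h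
    exact h

end

end Pool.Agent.H36.FR
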